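import Mathlib

namespace Pool.Agent.Results.MP_2fa0cb_nt.RankTwoNotSemilinear

open Polynomial

/-- A rational function as a self-map of the projective line `ℂ ∪ {∞}`. -/
noncomputable def act (h : RatFunc ℂ) (x : OnePoint ℂ) : OnePoint ℂ :=
  open Classical in
  OnePoint.elim x
    (if h.denom.natDegree < h.num.natDegree then OnePoint.infty
      else ((h.num.coeff h.denom.natDegree / h.denom.leadingCoeff : ℂ) : OnePoint ℂ))
    (fun z : ℂ => if h.denom.eval z = 0 then OnePoint.infty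
      else ((h.num.eval z / h.denom.eval z : ℂ) : OnePoint ℂ))

/-- The degree of a rational function. -/
noncomputable def deg (h : RatFunc ℂ) : ℕ := max h.num.natDegree h.denom.natDegree

/-- The rank-two recurrence set. -/
def rankTwoSet (f g c : RatFunc ℂ) : Set (ℕ × ℕ) :=
  {p | ∃ x : OnePoint ℂ, act c x = (act f)^[p.1] x ∧ (act f)^[p.1] x = (act g)^[p.2] x}

/-- The linear set `L(a, P)`. -/
def linSet (a : ℕ × ℕ) (P : Finset (ℕ × ℕ)) : Set (ℕ × ℕ) :=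
  {p | ∃ q ∈ AddSubmonoid.closure (P : Set (ℕ × ℕ)), p = a + q}

/-- Semi-linear subsets of `ℕ × ℕ`. -/
def SemiLinear (S : Set (ℕ × ℕ)) : Prop :=
  ∃ F : Finset ((ℕ × ℕ) × Finset (ℕ × ℕ)), S = ⋃ L ∈ F, linSet L.1 L.2

lemma num_sq : (RatFunc.X ^ 2 : RatFunc ℂ).num = X ^ 2 := by
  have : (RatFunc.X ^ 2 : RatFunc ℂ) = algebraMap ℂ[X] (RatFunc ℂ) (X ^ 2) := by
    rw [map_pow, RatFunc.algebraMap_X]
  rw [this, RatFunc.num_algebraMap]

lemma denom_sq : (RatFunc.X ^ 2 : RatFunc ℂ).denom = 1 := by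
  have : (RatFunc.X ^ 2 : RatFunc ℂ) = algebraMap ℂ[X] (RatFunc ℂ) (X ^ 2) := by
    rw [map_pow, RatFunc.algebraMap_X]
  rw [this, RatFunc.denom_algebraMap]

lemma num_denom_c (w : ℂ) (hw : w ≠ 0) :
    (RatFunc.C w / RatFunc.X : RatFunc ℂ).num = C w ∧
      (RatFunc.C w / RatFunc.X : RatFunc ℂ).denom = X := by
  set h : RatFunc ℂ := RatFunc.C w / RatFunc.X with hh
  have h1 : h = algebraMap ℂ[X] (RatFunc ℂ) (C w) / algebraMap ℂ[X] (RatFunc ℂ) X := by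
    rw [RatFunc.algebraMap_C, RatFunc.algebraMap_X]
  have key : h.num * X = C w * h.denom := by
    have := (RatFunc.num_mul_eq_mul_denom_iff (x := h) (p := C w) (q := X) X_ne_zero).mpr h1
    exact this
  have hd : h.denom ∣ X := by
    rw [RatFunc.denom_dvd X_ne_zero]
    exact ⟨C w, h1⟩
  have hX : X ∣ h.denom := by
    have : (X : ℂ[X]) ∣ C w * h.denom := ⟨h.num, by rw [← key]; ring⟩
    exact (isUnit_C.mpr (isUnit_iff_ne_zero.mpr hw)).dvd_mul_left.mp this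
  have hden : h.denom = X :=
    eq_of_monic_of_associated (RatFunc.monic_denom h) monic_X (associated_of_dvd_dvd hd hX)
  refine ⟨?_, hden⟩
  rw [hden] at key
  exact mul_right_cancel₀ X_ne_zero key

lemma act_sq_coe (z : ℂ) : act (RatFunc.X ^ 2) (z : OnePoint ℂ) = ((z ^ 2 : ℂ) : OnePoint ℂ) := by
  simp [act, num_sq, denom_sq]

lemma act_sq_infty : act (RatFunc.X ^ 2) (OnePoint.infty : OnePoint ℂ) = OnePoint.infty := by
  simp [act, num_sq, denom_sq]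

lemma iter_coe (n : ℕ) (z : ℂ) :
    (act (RatFunc.X ^ 2))^[n] (z : OnePoint ℂ) = ((z ^ 2 ^ n : ℂ) : OnePoint ℂ) := by
  induction n with
  | zero => simp
  | succ n ih => rw [Function.iterate_succ_apply', ih, act_sq_coe, ← pow_mul, pow_succ]

lemma iter_infty (n : ℕ) :
    (act (RatFunc.X ^ 2))^[n] (OnePoint.infty : OnePoint ℂ) = OnePoint.infty :=
  Function.iterate_fixed act_sq_infty n

lemma mem_iff (w : ℂ) (hw : w ≠ 0) (m n : ℕ) :
    (m, n) ∈ rankTwoSet (RatFunc.X ^ 2) (RatFunc.X ^ 2) (RatFunc.C w / RatFunc.X) ↔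
      ∃ z : ℂ, z ^ (2 ^ m + 1) = w ∧ z ^ (2 ^ n + 1) = w := by
  obtain ⟨hn, hd⟩ := num_denom_c w hw
  constructor
  · rintro ⟨x, h1, h2⟩
    induction x using OnePoint.rec with
    | infty =>
      rw [iter_infty] at h1
      simp [act, hn, hd] at h1
    | coe z =>
      simp only [iter_coe] at h1 h2
      by_cases hz : z = 0
      · simp [act, hn, hd, hz] at h1
      · simp [act, hn, hd, hz] at h1 h2
        refine ⟨z, ?_, ?_⟩
        · rw [pow_succ, ← h1]; field_simp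
        · rw [pow_succ, ← h2, ← h1]; field_simp
  · rintro ⟨z, h1, h2⟩
    have hz : z ≠ 0 := by
      rintro rfl
      simp at h1
      exact hw h1.symm
    refine ⟨(z : OnePoint ℂ), ?_, ?_⟩
    · simp only [iter_coe]
      simp [act, hn, hd, hz]
      rw [← h1, pow_succ]; field_simp
    · simp only [iter_coe]
      congr 1
      apply mul_right_cancel₀ hz
      rw [← pow_succ, ← pow_succ, h1, h2]

lemma three_pow_dvd (k : ℕ) : 3 ^ (k + 1) ∣ 2 ^ 3 ^ k + 1 := by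
  induction k with
  | zero => norm_num
  | succ k ih =>
    obtain ⟨c, hc⟩ := ih
    have h3 : (2 : ℤ) ^ 3 ^ k = 3 ^ (k + 1) * c - 1 := by
      have : ((2 ^ 3 ^ k + 1 : ℕ) : ℤ) = ((3 ^ (k + 1) * c : ℕ) : ℤ) := by rw [hc]
      push_cast at this
      linarith
    have : (3 : ℤ) ^ (k + 1 + 1) ∣ 2 ^ 3 ^ (k + 1) + 1 := by
      rw [pow_succ 3 k, pow_mul, h3]
      refine ⟨c * (3 ^ k * 3 ^ (k + 1) * c ^ 2 - 3 ^ (k + 1) * c + 1), ?_⟩
      ring
    exact_mod_cast this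

lemma dvd_order (z w : ℂ) (hw3 : w ^ 3 = 1) (hw1 : w ≠ 1) (A s : ℕ) (hs : 3 ^ s ∣ A)
    (hz : z ^ A = w) (N : ℕ) (hN : z ^ N = 1) : 3 ^ (s + 1) ∣ N := by
  have h3A : z ^ (A * 3) = 1 := by rw [pow_mul, hz, hw3]
  have ht1 : orderOf z ∣ A * 3 := orderOf_dvd_of_pow_eq_one h3A
  have ht2 : ¬ orderOf z ∣ A := fun h => hw1 (by rw [← hz]; exact orderOf_dvd_iff_pow_eq_one.mp h)
  have htN : orderOf z ∣ N := orderOf_dvd_of_pow_eq_one hN
  refine dvd_trans ?_ htN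
  by_contra hcon
  apply ht2
  have hA0 : A ≠ 0 := by
    rintro rfl
    exact hw1 (by simpa using hz.symm)
  have ht0 : orderOf z ≠ 0 := by
    intro h
    rw [h] at hcon
    exact hcon (dvd_zero _)
  obtain ⟨e, t, ht, hte⟩ := Nat.exists_eq_pow_mul_and_not_dvd ht0 3 (by norm_num)
  have he : e ≤ s := by
    by_contra hlt
    exact hcon (hte ▸ Dvd.dvd.mul_right (pow_dvd_pow 3 (by omega)) t)
  have hcop : Nat.Coprime t 3 := ((Nat.Prime.coprime_iff_not_dvd Nat.prime_three).mpr ht).symm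
  have h1 : t ∣ A := hcop.dvd_of_dvd_mul_right (dvd_trans (hte ▸ Dvd.intro_left _ rfl) ht1)
  have h2 : 3 ^ e ∣ A := dvd_trans (pow_dvd_pow 3 he) hs
  rw [hte]
  exact Nat.Coprime.mul_dvd_of_dvd_of_dvd (Nat.Coprime.pow_left e hcop.symm) h2 h1

lemma bound_closure (P : Finset (ℕ × ℕ)) (M : ℕ) (hM : ∀ p ∈ P, p.2 ≤ M)
    (hP : ∀ p ∈ P, p.1 = 0 → p.2 = 0) (q : ℕ × ℕ)
    (hq : q ∈ AddSubmonoid.closure (P : Set (ℕ × ℕ))) : q.2 ≤ M * q.1 := by
  induction hq using AddSubmonoid.closure_induction with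
  | mem p hp =>
    by_cases h0 : p.1 = 0
    · rw [hP p hp h0]; exact Nat.zero_le _
    · exact le_trans (hM p hp) (Nat.le_mul_of_pos_right M (Nat.pos_of_ne_zero h0))
  | zero => simp
  | add x y _ _ hx hy =>
    simp only [Prod.snd_add, Prod.fst_add, mul_add]
    omega

theorem result : ∃ f g c : RatFunc ℂ, 2 ≤ deg f ∧ 2 ≤ deg g ∧ ¬ SemiLinear (rankTwoSet f g c) := by
  obtain ⟨w, hw⟩ : ∃ w : ℂ, IsPrimitiveRoot w 3 := ⟨_, Complex.isPrimitiveRoot_exp 3 (by norm_num)⟩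
  have hw3 : w ^ 3 = 1 := hw.pow_eq_one
  have hw1 : w ≠ 1 := hw.ne_one (by norm_num)
  have hw0 : w ≠ 0 := hw.ne_zero (by norm_num)
  have hdeg : 2 ≤ deg (RatFunc.X ^ 2) := by simp [deg, num_sq, denom_sq]
  refine ⟨RatFunc.X ^ 2, RatFunc.X ^ 2, RatFunc.C w / RatFunc.X, hdeg, hdeg, ?_⟩
  rintro ⟨F, hF⟩
  obtain ⟨M, hM⟩ : ∃ M : ℕ, ∀ L ∈ F, L.1.2 ≤ M ∧ ∀ p ∈ L.2, p.2 ≤ M := by
    refine ⟨F.sup (fun L => L.1.2 + L.2.sup Prod.snd), fun L hL => ?_⟩
    have h1 := Finset.le_sup (f := fun L : (ℕ × ℕ) × Finset (ℕ × ℕ) => L.1.2 + L.2.sup Prod.snd) hL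
    refine ⟨by omega, fun p hp => ?_⟩
    have h2 := Finset.le_sup (f := Prod.snd) hp
    omega
  set k := 2 ^ M with hk
  set m := 3 ^ k with hm
  set A := 2 ^ m + 1 with hA
  have hA3 : 3 ^ (k + 1) ∣ A := three_pow_dvd k
  obtain ⟨z, hz⟩ := IsAlgClosed.exists_pow_nat_eq w (n := A) (by positivity)
  have hm0 : m ≠ 0 := by positivity
  have hcop : Nat.Coprime 2 (A * 3) := by
    refine Nat.Coprime.mul_right ?_ (by norm_num)
    rw [hA, Nat.coprime_two_left]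
    exact (Even.pow_of_ne_zero even_two hm0).add_one
  have hphi : 0 < Nat.totient (A * 3) := Nat.totient_pos.mpr (by positivity)
  set φ := Nat.totient (A * 3) with hφ
  set n := m + φ * (M + M * m + 1) with hn
  have hz3 : z ^ (A * 3) = 1 := by rw [pow_mul, hz, hw3]
  have hmem : (m, n) ∈ rankTwoSet (RatFunc.X ^ 2) (RatFunc.X ^ 2) (RatFunc.C w / RatFunc.X) := by
    rw [mem_iff w hw0]
    refine ⟨z, hz, ?_⟩
    have h1 : 2 ^ φ ≡ 1 [MOD A * 3] := Nat.ModEq.pow_totient hcop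
    have h2 : 2 ^ n + 1 ≡ A [MOD A * 3] := by
      have h3 := (h1.pow (M + M * m + 1)).mul_left (2 ^ m)
      rw [one_pow, mul_one, ← pow_mul, ← pow_add] at h3
      exact h3.add_right 1
    rw [← hz]
    rw [pow_eq_pow_mod _ hz3, h2, ← pow_eq_pow_mod _ hz3]
  have hmem' := hmem
  rw [hF] at hmem'
  simp only [Set.mem_iUnion] at hmem'
  obtain ⟨L, hL, q, hq, hpq⟩ := hmem'
  obtain ⟨p, hp, hp1, hp2⟩ : ∃ p ∈ L.2, p.1 = 0 ∧ p.2 ≠ 0 := by
    by_contra hcon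
    push Not at hcon
    have hb := bound_closure L.2 M (hM L hL).2 hcon q hq
    have e1 : m = L.1.1 + q.1 := congrArg Prod.fst hpq
    have e2 : n = L.1.2 + q.2 := congrArg Prod.snd hpq
    have e3 := (hM L hL).1
    have e4 : M * q.1 ≤ M * m := Nat.mul_le_mul_left M (by omega)
    have e5 : M + M * m + 1 ≤ φ * (M + M * m + 1) := Nat.le_mul_of_pos_left _ hphi
    omega
  have hmem2 : (m, n + p.2) ∈
      rankTwoSet (RatFunc.X ^ 2) (RatFunc.X ^ 2) (RatFunc.C w / RatFunc.X) := by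
    rw [hF]
    simp only [Set.mem_iUnion]
    refine ⟨L, hL, q + p, add_mem hq (AddSubmonoid.subset_closure hp), ?_⟩
    rw [← add_assoc, ← hpq]
    ext
    · simp [hp1]
    · simp
  have main : ∀ j : ℕ, (m, m + j) ∈
      rankTwoSet (RatFunc.X ^ 2) (RatFunc.X ^ 2) (RatFunc.C w / RatFunc.X) →
      3 ^ (k + 2) ∣ 2 ^ j - 1 := by
    intro j hj
    rw [mem_iff w hw0] at hj
    obtain ⟨y, hy1, hy2⟩ := hj
    have hj1 : 1 ≤ 2 ^ j := Nat.one_le_two_pow
    have hsplit : 2 ^ (m + j) + 1 = (2 ^ m + 1) + 2 ^ m * (2 ^ j - 1) := by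
      obtain ⟨u, hu⟩ := Nat.exists_eq_add_of_le hj1
      rw [pow_add, hu, Nat.add_sub_cancel_left]; ring
    rw [hsplit, pow_add, hy1] at hy2
    have hN : y ^ (2 ^ m * (2 ^ j - 1)) = 1 := by
      apply mul_left_cancel₀ hw0
      rw [hy2, mul_one]
    have := dvd_order y w hw3 hw1 A (k + 1) hA3 hy1 _ hN
    exact (Nat.Coprime.pow (k + 2) m (by norm_num : Nat.Coprime 3 2)).dvd_of_dvd_mul_left this
  have d1 := main _ hmem
  have d2 := main (φ * (M + M * m + 1) + p.2) (by rw [← add_assoc]; exact hmem2)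
  set j := φ * (M + M * m + 1)
  have hj1 : 1 ≤ 2 ^ j := Nat.one_le_two_pow
  have hp1' : 1 ≤ 2 ^ p.2 := Nat.one_le_two_pow
  have hsplit : 2 ^ (j + p.2) - 1 = (2 ^ j - 1) + 2 ^ j * (2 ^ p.2 - 1) := by
    obtain ⟨u, hu⟩ := Nat.exists_eq_add_of_le hj1
    obtain ⟨v, hv⟩ := Nat.exists_eq_add_of_le hp1'
    rw [pow_add, hu, hv, Nat.add_sub_cancel_left, Nat.add_sub_cancel_left]
    have : (1 + u) * (1 + v) = 1 + (u + (1 + u) * v) := by ring
    rw [this, Nat.add_sub_cancel_left]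
  rw [hsplit] at d2
  have d3 := (Nat.dvd_add_right d1).mp d2
  have d4 := (Nat.Coprime.pow (k + 2) j (by norm_num : Nat.Coprime 3 2)).dvd_of_dvd_mul_left d3
  have hpos : 0 < 2 ^ p.2 - 1 := by
    have : 1 < 2 ^ p.2 := Nat.one_lt_two_pow hp2
    omega
  have d5 := Nat.le_of_dvd hpos d4
  have d6 : 2 ^ p.2 ≤ k := Nat.pow_le_pow_right (by norm_num) ((hM L hL).2 p hp)
  have d7 : k + 2 < 3 ^ (k + 2) := Nat.lt_pow_self (by norm_num)
  omega

end Pool.Agent.Results.MP_2fa0cb_nt.RankTwoNotSemilinear
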